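import Pool.Agent.H474R2.GE.FA
import Pool.Agent.W262.RK.Defs

/-!
# Project EC, part MER2 (helper281): upper Mertens bound
-/

set_option autoImplicit false

namespace Pool.Agent.N281.EC

open Finset Polynomial
open Pool.Agent.W262.RK (PS)
open Pool.Agent.H474R2.PG (rho)

/-- the theorem of Mertens for the roots of a polynomial -/
lemma mert {f : ℤ[X]} (hf : Irreducible f) (hd : 0 < f.natDegree) :
    ∃ C : ℝ, 0 ≤ C ∧ ∀ z : ℕ, 3 ≤ z → ∀ y : ℕ, z < y →
      ∑ p ∈ PS z y, (rho f p : ℝ) / p ≤ Real.log (Real.log y) + C := by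
  obtain ⟨C, hC0, hC⟩ := Pool.Agent.H474R2.GE.mertens_rho f hf hd
  refine ⟨C, hC0, fun z hz y hy => ?_⟩
  have h1 := (abs_le.1 (hC y (by exact_mod_cast (by omega : 3 ≤ y)))).2
  have h2 : ∑ p ∈ PS z y, (rho f p : ℝ) / p ≤ Pool.Agent.H474R2.PG.Sg (rho f) (y : ℝ) := by
    unfold Pool.Agent.H474R2.PG.Sg
    refine sum_le_sum_of_subset_of_nonneg ?_ fun p _ _ => by positivity
    intro p hp
    unfold PS at hp
    unfold Pool.Agent.H474R2.PG.PR
    rw [mem_filter, mem_Ioc] at hp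
    rw [Nat.floor_natCast, mem_filter, mem_Icc]
    exact ⟨⟨hp.2.one_lt.le, hp.1.2⟩, hp.2⟩
  linarith

theorem mer2 (ι : Type) [Fintype ι] (f : ι → ℤ[X]) (W : ℤ[X]) (a : ℤ) (k : ℕ) (ha : a ≠ 0)
    (hf : ∀ i, Irreducible (f i) ∧ 0 < (f i).natDegree) (hW : W ∣ C a * (∏ i, f i) ^ k) :
    ∃ z0 : ℕ, ∀ z : ℕ, z0 ≤ z → ∃ K : ℝ, ∀ y : ℕ, z < y →
      ∑ p ∈ PS z y, (rho W p : ℝ) / p ≤
        (Fintype.card ι : ℝ) * Real.log (Real.log y) + K := by
  classical
  choose K hK0 hK using fun i => mert (hf i).1 (hf i).2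
  refine ⟨max 3 a.natAbs, fun z hz => ⟨∑ i, K i, fun y hy => ?_⟩⟩
  have hz3 : 3 ≤ z := (le_max_left _ _).trans hz
  have hza : a.natAbs ≤ z := (le_max_right _ _).trans hz
  have h1 : ∀ p ∈ PS z y, (rho W p : ℝ) / p ≤ ∑ i, (rho (f i) p : ℝ) / p := by
    intro p hp
    unfold PS at hp
    rw [mem_filter, mem_Ioc] at hp
    rw [← Finset.sum_div]
    refine div_le_div_of_nonneg_right ?_ (Nat.cast_nonneg p)
    have h2 : rho W p ≤ ∑ i, rho (f i) p := by
      unfold rho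
      refine (card_le_card ?_).trans card_biUnion_le
      intro x hx
      rw [mem_filter] at hx
      rw [mem_biUnion]
      have hpp : Prime (p : ℤ) := Nat.prime_iff_prime_int.1 hp.2
      have h3 : (p : ℤ) ∣ (C a * (∏ i, f i) ^ k).eval (x : ℤ) :=
        hx.2.trans (Polynomial.eval_dvd hW)
      rw [eval_mul, eval_C, eval_pow, eval_prod] at h3
      rcases hpp.dvd_or_dvd h3 with h4 | h4
      · exfalso
        have h5 : p ∣ a.natAbs := Int.natCast_dvd.1 h4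
        have h6 := Nat.le_of_dvd (Int.natAbs_pos.2 ha) h5
        omega
      · obtain ⟨i, _, hi⟩ := (hpp.dvd_finsetProd_iff _).1 (hpp.dvd_of_dvd_pow h4)
        exact ⟨i, mem_univ _, mem_filter.2 ⟨hx.1, hi⟩⟩
    exact_mod_cast h2
  calc ∑ p ∈ PS z y, (rho W p : ℝ) / p ≤ ∑ p ∈ PS z y, ∑ i, (rho (f i) p : ℝ) / p :=
        sum_le_sum h1
    _ = ∑ i, ∑ p ∈ PS z y, (rho (f i) p : ℝ) / p := sum_comm
    _ ≤ ∑ i, (Real.log (Real.log y) + K i) := sum_le_sum fun i _ => hK i z hz3 y hy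
    _ = (Fintype.card ι : ℝ) * Real.log (Real.log y) + ∑ i, K i := by
        rw [sum_add_distrib, sum_const, card_univ, nsmul_eq_mul]

end Pool.Agent.N281.EC
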