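import Pool.Agent.N870.EC.Stm
import Pool.Agent.N281.EC.Mer2a

/-!
# Project EC, part MER2 (helper281): upper Mertens bound
-/

set_option autoImplicit false

namespace Pool.Agent.N281.EC

theorem t_MER2 : Pool.Agent.N870.EC.S_MER2 :=
  fun ι _ f W a k ha hf hW => mer2 ι f W a k ha hf hW

end Pool.Agent.N281.EC
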